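import Pool.Agent.Helper50.AY.St

/-! Project AY (MP_b3ce06_al), module SPL. -/

set_option autoImplicit false

namespace Pool.Agent.Helper5.AY

open Pool.Agent.Helper50.AY Pool.Agent.Helper43.GD Polynomial

private theorem E_h {L A : Type} [CommRing L] [Group A] (Q : Fr L A) {u : Lˣ} (hu : u ∈ Q.U)
    (c : L) : Q.E c * Q.h u = Q.h u * Q.E (((u⁻¹ : Lˣ) : L) * c) := by
  have h := Q.h_E hu (((u⁻¹ : Lˣ) : L) * c)
  rw [Units.mul_inv_cancel_left] at h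
  rw [← h]
  group

private theorem claim (hRR : Pool.Agent.Helper43.GD.StRR) {L A : Type} [CommRing L] [Group A]
    (Q : Fr L A) (z a : Lˣ) (hz : z ∈ Q.U) (ha : a ∈ Q.U) (n : ℕ) :
    Q.E ((a : L) * ∑ i ∈ Finset.range n, (z : L) ^ i) * Q.F (((z : L) - 1) * ((a⁻¹ : Lˣ) : L)) =
      Q.F ((((z ^ n)⁻¹ : Lˣ) : L) * (((z : L) - 1) * ((a⁻¹ : Lˣ) : L))) *
        (Q.h (z ^ n) * Q.h (z ^ n)) *
        Q.E ((((z ^ n)⁻¹ : Lˣ) : L) * ((a : L) * ∑ i ∈ Finset.range n, (z : L) ^ i)) := by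
  induction n with
  | zero =>
    have h1 := Q.h_one
    have h2 := Q.E_zero
    simp [h1, h2]
  | succ n ih =>
    have hzn : z ^ n ∈ Q.U := Q.U.pow_mem hz n
    obtain ⟨b, hb⟩ : ∃ b : L, b = ((z : L) - 1) * ((a⁻¹ : Lˣ) : L) := ⟨_, rfl⟩
    obtain ⟨s, hs⟩ : ∃ s : L, s = ∑ i ∈ Finset.range n, (z : L) ^ i := ⟨_, rfl⟩
    rw [← hb, ← hs] at ih
    have hab : (a : L) * b = (z : L) - 1 := by
      have := a.mul_inv
      rw [hb]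
      linear_combination ((z : L) - 1) * this
    have hzi : (z : L) ^ n * (((z ^ n)⁻¹ : Lˣ) : L) = 1 := by
      have := (z ^ n).mul_inv
      rwa [Units.val_pow_eq_pow_val] at this
    have hRR1 := hRR L A Q (a * z ^ n) z ((((z ^ n)⁻¹ : Lˣ) : L) * b) (Q.U.mul_mem ha hzn) hz (by
      rw [Units.val_mul, Units.val_pow_eq_pow_val]
      have h1 : (a : L) * (z : L) ^ n * ((((z ^ n)⁻¹ : Lˣ) : L) * b) =
          ((a : L) * b) * ((z : L) ^ n * (((z ^ n)⁻¹ : Lˣ) : L)) := by ring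
      rw [h1, hzi, hab]
      ring)
    have h1 : (a : L) * ∑ i ∈ Finset.range (n + 1), (z : L) ^ i =
        ((a * z ^ n : Lˣ) : L) + (a : L) * s := by
      rw [Finset.sum_range_succ, ← hs]
      push_cast
      ring
    have h2 : ∑ i ∈ Finset.range (n + 1), (z : L) ^ i = (z : L) * s + 1 := by
      rw [geom_sum_succ, ← hs]
    have hinv : (((z ^ (n + 1))⁻¹ : Lˣ) : L) = ((z⁻¹ : Lˣ) : L) * (((z ^ n)⁻¹ : Lˣ) : L) := by
      rw [pow_succ, mul_inv_rev, Units.val_mul]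
    have hhz : Q.h (z ^ (n + 1)) = Q.h z * Q.h (z ^ n) := by
      rw [pow_succ', Q.h_mul hz hzn]
    have hcm : Q.h z * Q.h (z ^ n) = Q.h (z ^ n) * Q.h z := Q.h_comm hz hzn
    have key : Q.h z * (Q.h z * Q.h (z ^ n)) * Q.h (z ^ n) =
        Q.h z * Q.h (z ^ n) * (Q.h z * Q.h (z ^ n)) := by
      calc Q.h z * (Q.h z * Q.h (z ^ n)) * Q.h (z ^ n)
          = Q.h z * (Q.h (z ^ n) * Q.h z) * Q.h (z ^ n) := by rw [hcm]
        _ = _ := by group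
    -- the right factor
    have hE : (((z ^ n)⁻¹ : Lˣ) : L) * ((((z ^ n)⁻¹ : Lˣ) : L) *
        (((z⁻¹ : Lˣ) : L) * ((a * z ^ n : Lˣ) : L))) + (((z ^ n)⁻¹ : Lˣ) : L) * ((a : L) * s) =
        (((z ^ (n + 1))⁻¹ : Lˣ) : L) * ((a : L) * ∑ i ∈ Finset.range (n + 1), (z : L) ^ i) := by
      rw [h2, hinv, Units.val_mul, Units.val_pow_eq_pow_val]
      have h3 := z.mul_inv
      linear_combination ((((z ^ n)⁻¹ : Lˣ) : L) * ((z⁻¹ : Lˣ) : L) * (a : L)) * hzi -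
        ((((z ^ n)⁻¹ : Lˣ) : L) * (a : L) * s) * h3
    rw [← hb, ← hE, h1, Q.Eadd, mul_assoc, ih, Q.Eadd, hinv, hhz]
    calc Q.E ((a * z ^ n : Lˣ) : L) * (Q.F ((((z ^ n)⁻¹ : Lˣ) : L) * b) *
          (Q.h (z ^ n) * Q.h (z ^ n)) * Q.E ((((z ^ n)⁻¹ : Lˣ) : L) * ((a : L) * s)))
        = (Q.E ((a * z ^ n : Lˣ) : L) * Q.F ((((z ^ n)⁻¹ : Lˣ) : L) * b)) *
          (Q.h (z ^ n) * Q.h (z ^ n)) * Q.E ((((z ^ n)⁻¹ : Lˣ) : L) * ((a : L) * s)) := by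
          group
      _ = Q.F (((z⁻¹ : Lˣ) : L) * ((((z ^ n)⁻¹ : Lˣ) : L) * b)) * (Q.h z * Q.h z) *
          ((Q.E (((z⁻¹ : Lˣ) : L) * ((a * z ^ n : Lˣ) : L)) * Q.h (z ^ n)) * Q.h (z ^ n)) *
          Q.E ((((z ^ n)⁻¹ : Lˣ) : L) * ((a : L) * s)) := by
          rw [hRR1]
          group
      _ = Q.F (((z⁻¹ : Lˣ) : L) * ((((z ^ n)⁻¹ : Lˣ) : L) * b)) * (Q.h z * Q.h z) *
          (Q.h (z ^ n) * (Q.h (z ^ n) * Q.E ((((z ^ n)⁻¹ : Lˣ) : L) * ((((z ^ n)⁻¹ : Lˣ) : L) *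
            (((z⁻¹ : Lˣ) : L) * ((a * z ^ n : Lˣ) : L)))))) *
          Q.E ((((z ^ n)⁻¹ : Lˣ) : L) * ((a : L) * s)) := by
          rw [E_h Q hzn, mul_assoc (Q.h (z ^ n)) _ (Q.h (z ^ n)), E_h Q hzn]
      _ = Q.F (((z⁻¹ : Lˣ) : L) * ((((z ^ n)⁻¹ : Lˣ) : L) * b)) *
          (Q.h z * (Q.h z * Q.h (z ^ n)) * Q.h (z ^ n)) *
          (Q.E ((((z ^ n)⁻¹ : Lˣ) : L) * ((((z ^ n)⁻¹ : Lˣ) : L) *
            (((z⁻¹ : Lˣ) : L) * ((a * z ^ n : Lˣ) : L)))) *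
          Q.E ((((z ^ n)⁻¹ : Lˣ) : L) * ((a : L) * s))) := by
          group
      _ = Q.F (((z⁻¹ : Lˣ) : L) * (((z ^ n)⁻¹ : Lˣ) : L) * b) *
          (Q.h z * Q.h (z ^ n) * (Q.h z * Q.h (z ^ n))) *
          (Q.E ((((z ^ n)⁻¹ : Lˣ) : L) * ((((z ^ n)⁻¹ : Lˣ) : L) *
            (((z⁻¹ : Lˣ) : L) * ((a * z ^ n : Lˣ) : L)))) *
          Q.E ((((z ^ n)⁻¹ : Lˣ) : L) * ((a : L) * s))) := by
          rw [key, mul_assoc (((z⁻¹ : Lˣ) : L))]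

theorem hSPL (hRR : Pool.Agent.Helper43.GD.StRR) : StSPL := by
  intro L A _ _ Q z a N hz ha hN
  have h := claim hRR Q z a hz ha N
  have h1 := Q.h_one
  rw [hN, h1] at h
  simpa using h

end Pool.Agent.Helper5.AY
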